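import Pool.Agent.Q155.GN.Stm3
import Pool.Agent.Y715.Z.Glo
import Pool.Agent.Y715.Z.Loc

/-!
# Project GN, job LBD: local solubility at the primes dividing `D`
-/

set_option autoImplicit false
set_option linter.unusedVariables false

open NumberField IsDedekindDomain

namespace Q52.GN

open H385 (ZI nrm)
open Pool.Agent.Y699 (PP PS qr plc)
open Pool.Agent.Y715.Z
open Pool.Agent.Y682 (vv vv_coe)
open Q155.GN (LC S_LBD)

section

variable {K : Type} [Field K] [NumberField K] (e : ZI ≃+* 𝓞 K)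

lemma eq_plc (v : HeightOneSpectrum (𝓞 K)) {z : ZI} (hz : Prime z) (h : e z ∈ v.asIdeal) :
    v = plc e hz := by
  apply HeightOneSpectrum.ext
  have h1 : (plc e hz).asIdeal ≤ v.asIdeal := by
    show Ideal.span {e z} ≤ v.asIdeal
    rw [Ideal.span_singleton_le_iff_mem]
    exact h
  exact ((plc e hz).isMaximal.eq_of_le v.isPrime.ne_top h1).symm

variable {z : ZI} (hz : Prime z)

/-- a prime of odd norm does not divide two -/
lemma not_dvd_two (hP : PP z) : ¬ z ∣ 2 := by
  rintro ⟨c, hc⟩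
  have h1 := congrArg Zsqrtd.norm hc
  rw [Zsqrtd.norm_mul] at h1
  have h2 : (2 : ZI).norm = 4 := by decide
  rw [h2] at h1
  have h3 := hP.norm_mod
  have h4 : (0 : ℤ) < z.norm := by
    have h5 : 0 ≤ z.norm := GaussianInt.norm_nonneg z
    omega
  have h5 : z.norm ∣ 4 := ⟨_, h1⟩
  have h6 : z.norm ≤ 4 := Int.le_of_dvd (by norm_num) h5
  have h7 : z.norm = 1 := by omega
  exact hP.pr.not_isUnit (Zsqrtd.norm_eq_one_iff.1 (by rw [h7]; rfl))

lemma val_int (a : ZI) : vv (plc e hz) (ph e hz (em0 e a)) ≤ 1 := by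
  rw [vv_coe]; exact val_le e hz a

/-- a unit with a square residue is a square -/
lemma sqrt_of_qr (hP : PP z) {a : ZI} (ha : ¬ z ∣ a) (h : qr z a = 1) :
    ∃ x : (plc e hz).adicCompletion K, x ≠ 0 ∧ x ^ 2 = ph e hz (em0 e a) := by
  have h2' : (plc e hz).valuation K 2 = 1 := by
    have := val_one e hz (not_dvd_two hP)
    rwa [map_ofNat] at this
  unfold qr at h
  rw [if_neg ha] at h
  have hb : ∃ b, z ∣ a - b ^ 2 := by
    by_contra hc
    rw [if_neg hc] at h
    norm_num at h
  obtain ⟨b, hb⟩ := hb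
  have hzb : ¬ z ∣ b := by
    intro h1
    apply ha
    have h3 : a = (a - b ^ 2) + b * b := by ring
    rw [h3]
    exact dvd_add hb (Dvd.dvd.mul_right h1 b)
  have hb0 : b ≠ 0 := by
    rintro rfl
    exact hzb (dvd_zero z)
  have hpb : ph e hz (em0 e b) ≠ 0 := (map_ne_zero _).2 (em0_ne e hb0)
  obtain ⟨y, hy⟩ := hens_odd (plc e hz) h2'
    (ph e hz (em0 e (a - b ^ 2)) / (ph e hz (em0 e b)) ^ 2) (by
      rw [map_div₀, map_pow, vv_coe, vv_coe, val_one e hz hzb, one_pow, div_one]
      exact (val_lt e hz _).2 hb)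
  refine ⟨ph e hz (em0 e b) * y, ?_, ?_⟩
  · intro h0
    have h4 : (ph e hz (em0 e b) * y) ^ 2 = ph e hz (em0 e a) := by
      rw [mul_pow, hy]
      field_simp
      rw [map_sub, map_sub, map_pow, map_pow]
      ring
    rw [h0, zero_pow two_ne_zero] at h4
    have h5 := congrArg (vv (plc e hz)) h4
    rw [map_zero, vv_coe, val_one e hz ha] at h5
    exact zero_ne_one h5
  · rw [mul_pow, hy]
    field_simp
    rw [map_sub, map_sub, map_pow, map_pow]
    ring

/-- the class of the squares -/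
lemma lc_sq (hP : PP z) {B c d : (plc e hz).adicCompletion K} (hc : c ≠ 0) (hd : c ^ 2 = d)
    (hB : vv (plc e hz) B ≤ 1) : LC ((plc e hz).adicCompletion K) 0 B d := by
  have h2' : (plc e hz).valuation K 2 = 1 := by
    have := val_one e hz (not_dvd_two hP)
    rwa [map_ofNat] at this
  have hz0 : z ≠ 0 := hz.ne_zero
  set p := ph e hz (em0 e z) with hp
  have hp0 : p ≠ 0 := (map_ne_zero _).2 (em0_ne e hz0)
  have hpv : vv (plc e hz) p < 1 := by
    rw [hp, vv_coe]; exact (val_lt e hz z).2 dvd_rfl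
  have h4 : vv (plc e hz) (-4 : (plc e hz).adicCompletion K) = 1 := by
    have e4 : (4 : (plc e hz).adicCompletion K) = algebraMap K _ (2 * 2) := by
      rw [map_mul, map_ofNat]; norm_num
    rw [Valuation.map_neg, e4, vv_coe, map_mul, h2', one_mul]
  obtain ⟨y, hy⟩ := hens_odd (plc e hz) h2' (-4 * B * p ^ 4) (by
    rw [map_mul, map_mul, h4, one_mul, map_pow, mul_comm]
    exact mul_lt_one_of_lt_of_le (pow_lt_one₀ zero_le hpv (by norm_num)) hB)
  refine ⟨1 / p ^ 2, y / p ^ 3, 1 / (p * c), ?_, ?_, ?_⟩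
  · exact div_ne_zero one_ne_zero (pow_ne_zero 2 hp0)
  · rw [div_pow, hy]
    field_simp
    ring
  · rw [← hd]
    field_simp

end

theorem lbd : S_LBD := by
  intro K _ _ e v z d d' hP hv hsq hD0 hcase
  obtain rfl := eq_plc e v hP.pr hv
  have hz := hP.pr
  have hd0 : d ≠ 0 := left_ne_zero_of_mul hD0
  have hd0' : d' ≠ 0 := right_ne_zero_of_mul hD0
  rcases hcase with ⟨h1, h2⟩ | ⟨h1, h2⟩
  · obtain ⟨x, hx0, hx⟩ := sqrt_of_qr e hP.pr hP h1 h2
    constructor
    · exact lc_sq e hP.pr hP hx0 hx (val_int e hP.pr _)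
    · refine lc_sq e hP.pr hP hx0 hx ?_
      rw [map_neg, Valuation.map_neg, map_pow, map_pow]
      exact pow_le_one₀ zero_le (val_int e hP.pr _)
  · have hzd' : ¬ z ∣ d' := by
      intro h3
      exact hz.not_isUnit (hsq z (mul_dvd_mul h1 h3))
    obtain ⟨x, hx0, hx⟩ := sqrt_of_qr e hP.pr hP hzd' h2
    have h2' : (plc e hP.pr).valuation K 2 = 1 := by
      have := val_one e hP.pr (not_dvd_two hP)
      rwa [map_ofNat] at this
    haveI hcz : CharZero ((plc e hP.pr).adicCompletion K) :=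
      charZero_of_injective_algebraMap (algebraMap K ((plc e hP.pr).adicCompletion K)).injective
    have h40 : (-4 : (plc e hP.pr).adicCompletion K) ≠ 0 := by
      rw [neg_ne_zero]; exact_mod_cast (by norm_num : (4 : ℕ) ≠ 0)
    set i := ph e hP.pr (em0 e (⟨0, 1⟩ : ZI)) with hi
    have hi2 : i ^ 2 = -1 := by
      rw [hi, ← map_pow, ← map_pow]
      have : ((⟨0, 1⟩ : ZI)) ^ 2 = -1 := by decide
      rw [this, map_neg, map_neg, map_one, map_one]
    set D := ph e hP.pr (em0 e (d * d')) with hD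
    have hDx : D = ph e hP.pr (em0 e d) * x ^ 2 := by
      rw [hD, map_mul, map_mul, hx]
    have hDn : D ≠ 0 := (map_ne_zero _).2 (em0_ne e hD0)
    have hDv : vv (plc e hP.pr) D < 1 := by
      rw [hD, vv_coe]
      exact (val_lt e hP.pr _).2 (Dvd.dvd.mul_right h1 d')
    constructor
    · -- X = D
      have h4 : vv (plc e hP.pr) (-4 : (plc e hP.pr).adicCompletion K) = 1 := by
        have e4 : (4 : (plc e hP.pr).adicCompletion K) = algebraMap K _ (2 * 2) := by
          rw [map_mul, map_ofNat]; norm_num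
        rw [Valuation.map_neg, e4, vv_coe, map_mul, h2', one_mul]
      obtain ⟨y, hy⟩ := hens_odd (plc e hP.pr) h2' (D / (-4)) (by
        rw [map_div₀, h4, div_one]; exact hDv)
      refine ⟨D, D * (2 * i) * y, x, hDn, ?_, hDx⟩
      have h5 : D / (-4) * (-4) = D := div_mul_cancel₀ D h40
      rw [mul_pow, mul_pow, mul_pow, hy, hi2]
      linear_combination (D ^ 2) * h5
    · have h1i : (1 + i) ^ 2 = 2 * i := by linear_combination hi2
      have hi0 : i ≠ 0 := by
        intro h0
        rw [h0, zero_pow two_ne_zero] at hi2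
        have : (1 : (plc e hP.pr).adicCompletion K) = 0 := by linear_combination hi2
        exact one_ne_zero this
      refine ⟨D * (2 * i), 0, x * (1 + i), ?_, ?_, ?_⟩
      · exact mul_ne_zero hDn (mul_ne_zero two_ne_zero hi0)
      · rw [map_neg, map_pow, ← hD]
        linear_combination (-8 * i * D ^ 3) * hi2
      · rw [mul_pow, h1i, hDx]
        ring

end Q52.GN
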